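import Pool.Agent.R280.XLat2

/-!
# Extensions of semiprojective Banach lattices (MP_1502ad_an, Q1: disproved)

Let `A = ℝ ⊕_∞ ℓ_1` and let `J = 0 ⊕ ℓ_1`, so that `A / J = ℝ`. The Banach lattices `ℓ_1` and `ℝ` are
projective and so semiprojective. Let `E = c ⊕ c_0` with the norm `sup_n (|x_n| + |y_n|)` and let
`I_k` be the set of all `(x, 0)` with `x_n = 0` for `n ≥ k`. Then `E / I = ℝ ⊕_∞ c_0`, and for each `k`
every lift of the inclusion `A → E / I` to a lattice homomorphism `A → E / I_k` has norm at least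
`2`. So `A` is not semiprojective.
-/

set_option autoImplicit false

open Pool.Agent.R280.BLat Set Topology Filter

universe u v

namespace Pool.Agent.Results.MP_1502ad_an.ExtensionNotSemiprojective

/-- There are Banach lattices `J`, `A`, `B` and a short exact sequence `0 → J → A → B → 0` (`i` an
isometric lattice homomorphism onto the closed ideal `ker Q` of `A`, and `Q` a quotient map, so that
`B = A / ker Q`) such that `J` and `B` are semiprojective but `A` is not. -/
theorem result : ∃ (J A B : Type) (_ : NormedAddCommGroup J) (_ : NormedSpace ℝ J) (_ : Lattice J)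
    (_ : NormedAddCommGroup A) (_ : NormedSpace ℝ A) (_ : Lattice A)
    (_ : NormedAddCommGroup B) (_ : NormedSpace ℝ B) (_ : Lattice B)
    (i : J →L[ℝ] A) (Q : A →L[ℝ] B),
    BanachLattice J ∧ BanachLattice A ∧ BanachLattice B ∧
      (IsLatHom i ∧ ∀ x, ‖i x‖ = ‖x‖) ∧ IsQuotient Q ∧ (∀ a, Q a = 0 ↔ ∃ x, i x = a) ∧
      IsSemiprojective.{0, v} J ∧ IsSemiprojective.{0, v} B ∧ ¬ IsSemiprojective.{0, 0} A := by
  refine ⟨ell1.Space, ℝ × ell1.Space, ℝ, inferInstance, inferInstance, inferInstance,
    inferInstance, inferInstance, inferInstance, inferInstance, inferInstance, inferInstance,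
    ContinuousLinearMap.inr ℝ ℝ ell1.Space, ContinuousLinearMap.fst ℝ ℝ ell1.Space,
    inferInstance, inferInstance, inferInstance, ⟨?_, ?_⟩, ⟨?_, ?_⟩, ?_,
    isProjective_ell1.isSemiprojective, isProjective_real.isSemiprojective,
    not_isSemiprojective⟩
  · intro a b
    constructor
    · refine Prod.ext ?_ rfl
      show (0 : ℝ) = 0 ⊔ 0
      rw [sup_idem]
    · refine Prod.ext ?_ rfl
      show (0 : ℝ) = 0 ⊓ 0
      rw [inf_idem]
  · intro x
    show ‖((0 : ℝ), x)‖ = ‖x‖
    rw [Prod.norm_def, norm_zero]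
    exact max_eq_right (norm_nonneg x)
  · intro a b
    exact ⟨rfl, rfl⟩
  · intro y
    constructor
    · rintro r ⟨x, rfl, rfl⟩
      exact norm_fst_le x
    · intro c hc
      refine (hc ⟨(y, 0), rfl, rfl⟩).trans ?_
      rw [Prod.norm_def, norm_zero]
      exact (max_eq_left (norm_nonneg y)).le
  · intro a
    constructor
    · intro h
      refine ⟨a.2, Prod.ext ?_ rfl⟩
      exact (show a.1 = 0 from h).symm
    · rintro ⟨x, rfl⟩
      rfl

end Pool.Agent.Results.MP_1502ad_an.ExtensionNotSemiprojective
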